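import Pool.Agent.W627.LT.All2

/-!
# Class group torsion of the twists of a real quadratic field: at most one exception

For every `M` and every `b`, all but at most one of the real quadratic fields of the square roots
of `a b`, `a ≤ M` squarefree, satisfy, for all `l` at once, the bound `D ^ (1/2 - 1/(2l) + ε)` for
the number of ideal classes killed by `l`.
-/

set_option autoImplicit false

open NumberField
open scoped Classical

theorem Pool.Agent.Results.MP_695920_nt.AllTwistsButOne.eq_of_isSquare_mul {a c : ℕ}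
    (ha : Squarefree a) (hc : Squarefree c) (h : IsSquare (a * c)) : a = c := by
  obtain ⟨k, hk⟩ := h
  have ha0 : a ≠ 0 := ha.ne_zero
  have hc0 : c ≠ 0 := hc.ne_zero
  have hk0 : k ≠ 0 := by
    rintro rfl
    simp at hk
    rcases hk with h | h
    · exact ha0 h
    · exact hc0 h
  refine Nat.eq_of_factorization_eq ha0 hc0 fun p => ?_
  have h1 := ha.natFactorization_le_one p
  have h2 := hc.natFactorization_le_one p
  have h3 : (a * c).factorization p = (k * k).factorization p := by rw [hk]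
  rw [Nat.factorization_mul ha0 hc0, Nat.factorization_mul hk0 hk0] at h3
  simp only [Finsupp.coe_add, Pi.add_apply] at h3
  omega

/-- For all `ε > 0` and `M` there is `C` such that for every positive `b` all but at most one of the
squarefree integers `a ≤ M` with `a b` not a square have this property: the quadratic field of the
square root of `a b`, with discriminant `D`, has for every `l ≥ 1` at most
`C * D ^ (1/2 - 1/(2l)) * b ^ ε` ideal classes killed by `l`. -/
theorem Pool.Agent.Results.MP_695920_nt.AllTwistsButOne.result :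
    ∀ ε : ℝ, 0 < ε → ∀ M : ℕ, ∃ C : ℝ, 0 < C ∧ ∀ b : ℕ, 0 < b →
      ((Finset.Icc 1 M).filter (fun a => Squarefree a ∧ ¬ IsSquare (a * b) ∧
        ¬ ∀ (K : Type) [Field K] [NumberField K],
          Module.finrank ℚ K = 2 → (∃ x : K, x ^ 2 = ((a * b : ℕ) : K)) →
          ∀ l : ℕ, 1 ≤ l → (Nat.card {c : ClassGroup (𝓞 K) // c ^ l = 1} : ℝ) ≤
            C * |(discr K : ℝ)| ^ (1 / 2 - 1 / (2 * l) : ℝ) * (b : ℝ) ^ ε)).card ≤ 1 := by
  intro ε hε M
  have hev : ∀ᶠ X : ℝ in Filter.atTop, ∀ α ∈ Finset.range (M ^ 2 + 1), 0 < α → ¬ IsSquare α →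
      ∀ b : ℕ, 0 < b → ¬ IsSquare b → ¬ IsSquare (α * b) → ((α * b : ℕ) : ℝ) ≤ X →
        Pool.Agent.W627.LT.Good ε X b ∨ Pool.Agent.W627.LT.Good ε X (α * b) := by
    rw [Filter.eventually_all_finset]
    intro α _
    by_cases h : 0 < α ∧ ¬ IsSquare α
    · obtain ⟨X0, hX0⟩ := Pool.Agent.W627.LT.sT ε hε α h.1 h.2
      exact (Filter.eventually_ge_atTop X0).mono fun X hX _ _ => hX0 X hX
    · exact Filter.Eventually.of_forall fun X h1 h2 => absurd ⟨h1, h2⟩ h
  obtain ⟨X1, hX1⟩ := hev.exists_forall_of_atTop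
  have hm : (1 : ℝ) ≤ max X1 1 := le_max_right _ _
  have hm0 : (0 : ℝ) < max X1 1 := zero_lt_one.trans_le hm
  have hM0 : (0 : ℝ) < (M : ℝ) ^ 3 + 1 := by positivity
  refine ⟨(max X1 1 * ((M : ℝ) ^ 3 + 1)) ^ ε, Real.rpow_pos_of_pos (mul_pos hm0 hM0) ε, ?_⟩
  intro b hb
  have hb0 : (0 : ℝ) < b := by exact_mod_cast hb
  have hb1 : (1 : ℝ) ≤ b := by exact_mod_cast hb
  set X : ℝ := max X1 1 * ((M : ℝ) ^ 3 + 1) * b with hXdef
  have hM1 : (1 : ℝ) ≤ (M : ℝ) ^ 3 + 1 := by
    have : (0 : ℝ) ≤ (M : ℝ) ^ 3 := by positivity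
    linarith
  have hXm : max X1 1 ≤ X := by
    rw [hXdef, mul_assoc]
    exact le_mul_of_one_le_right hm0.le (one_le_mul_of_one_le_of_one_le hM1 hb1)
  have hX : X1 ≤ X := (le_max_left X1 1).trans hXm
  have key : ∀ m : ℕ, Pool.Agent.W627.LT.Good ε X m →
      ∀ (K : Type) [Field K] [NumberField K],
          Module.finrank ℚ K = 2 → (∃ x : K, x ^ 2 = (m : K)) →
          ∀ l : ℕ, 1 ≤ l → (Nat.card {c : ClassGroup (𝓞 K) // c ^ l = 1} : ℝ) ≤
            (max X1 1 * ((M : ℝ) ^ 3 + 1)) ^ ε * |(discr K : ℝ)| ^ (1 / 2 - 1 / (2 * l) : ℝ) *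
              (b : ℝ) ^ ε := by
    intro m hg K _ _ hK hx l hl
    have h3 := hg K hK hx l hl
    unfold Pool.Agent.W627.LT.tor at h3
    refine h3.trans (le_of_eq ?_)
    rw [hXdef, Real.mul_rpow (mul_pos hm0 hM0).le hb0.le]
    ring
  rw [Finset.card_le_one]
  intro a ha c hc
  by_contra hac
  rw [Finset.mem_filter, Finset.mem_Icc] at ha hc
  obtain ⟨⟨ha1, haM⟩, hasq, hab, hbad1⟩ := ha
  obtain ⟨⟨hc1, hcM⟩, hcsq, hcb, hbad2⟩ := hc
  have hαsq : ¬ IsSquare (a * c) := fun h =>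
    hac (Pool.Agent.Results.MP_695920_nt.AllTwistsButOne.eq_of_isSquare_mul hasq hcsq h)
  have hαM : a * c ∈ Finset.range (M ^ 2 + 1) := by
    rw [Finset.mem_range, sq]
    exact Nat.lt_succ_of_le (Nat.mul_le_mul haM hcM)
  have e1 : a * c * (a * b) = c * b * a ^ 2 := by ring
  have h3sq : ¬ IsSquare (a * c * (a * b)) := by
    rw [e1]
    exact Pool.Agent.W520.LT.not_sq ha1 hcb
  have hle : ((a * c * (a * b) : ℕ) : ℝ) ≤ X := by
    have h5 : a * c * (a * b) ≤ M ^ 3 * b := by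
      calc a * c * (a * b) = (a * c * a) * b := by ring
        _ ≤ (M * M * M) * b := Nat.mul_le_mul_right b
            (Nat.mul_le_mul (Nat.mul_le_mul haM hcM) haM)
        _ = M ^ 3 * b := by ring
    have h6 : ((a * c * (a * b) : ℕ) : ℝ) ≤ (M : ℝ) ^ 3 * b := by exact_mod_cast h5
    refine h6.trans ?_
    rw [hXdef]
    refine mul_le_mul_of_nonneg_right ?_ hb0.le
    have h7 : (M : ℝ) ^ 3 ≤ (M : ℝ) ^ 3 + 1 := by linarith
    exact h7.trans (le_mul_of_one_le_left hM0.le hm)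
  have h8 := hX1 X hX (a * c) hαM (Nat.mul_pos ha1 hc1) hαsq (a * b) (Nat.mul_pos ha1 hb) hab
    h3sq hle
  rcases h8 with h | h
  · exact hbad1 (key (a * b) h)
  · rw [e1] at h
    exact hbad2 (key (c * b) (Pool.Agent.W520.LT.good_sq h))
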