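import Pool.Agent.W627.LT.All

/-!
# Class group torsion in the quadratic subfields of a real multiquadratic field

For every real multiquadratic field of degree `2 ^ r`, without exception, at least `2 ^ (r-1) - 1`
of its `2 ^ r - 1` quadratic subfields satisfy, for all `l` at once, the bound
`D ^ (1/2 - 1/(2l) + ε)` for the number of ideal classes killed by `l`.
-/

set_option autoImplicit false

open NumberField
open scoped Classical

/-- Let `d_1, …, d_r` be positive integers no nonempty subproduct of which is a square.  For at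
least `2 ^ (r-1) - 1` of the nonempty subsets `I` the quadratic field of the square root of
`∏_{i ∈ I} d_i`, with discriminant `D`, has for every `l ≥ 1` at most
`C * D ^ (1/2 - 1/(2l)) * (∏ d_i) ^ ε` ideal classes killed by `l`. -/
theorem Pool.Agent.Results.MP_695920_nt.MultiquadraticHalf.result :
    ∀ ε : ℝ, 0 < ε → ∃ C : ℝ, 0 < C ∧ ∀ (r : ℕ) (d : Fin r → ℕ), (∀ i, 0 < d i) →
      (∀ I : Finset (Fin r), I.Nonempty → ¬ IsSquare (∏ i ∈ I, d i)) →
      2 ^ (r - 1) - 1 ≤ ((Finset.univ : Finset (Finset (Fin r))).filter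
        (fun I => I.Nonempty ∧ ∀ (K : Type) [Field K] [NumberField K],
          Module.finrank ℚ K = 2 → (∃ x : K, x ^ 2 = ((∏ i ∈ I, d i : ℕ) : K)) →
          ∀ l : ℕ, 1 ≤ l → (Nat.card {c : ClassGroup (𝓞 K) // c ^ l = 1} : ℝ) ≤
            C * |(discr K : ℝ)| ^ (1 / 2 - 1 / (2 * l) : ℝ) * ((∏ i, d i : ℕ) : ℝ) ^ ε)).card := by
  intro ε hε
  obtain ⟨X0, hX0⟩ := Pool.Agent.W627.LT.sR ε hε
  refine ⟨(max X0 1) ^ ε, Real.rpow_pos_of_pos (lt_max_of_lt_right one_pos) ε, ?_⟩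
  intro r d hd hsq
  have hpos : 0 < ∏ i, d i := Finset.prod_pos fun i _ => hd i
  have h1 : (1 : ℝ) ≤ ((∏ i, d i : ℕ) : ℝ) := by exact_mod_cast hpos
  have hm : (1 : ℝ) ≤ max X0 1 := le_max_right _ _
  have hm0 : (0 : ℝ) ≤ max X0 1 := zero_le_one.trans hm
  have hX : X0 ≤ max X0 1 * ((∏ i, d i : ℕ) : ℝ) :=
    (le_max_left X0 1).trans (le_mul_of_one_le_right hm0 h1)
  have h2 : ((∏ i, d i : ℕ) : ℝ) ≤ max X0 1 * ((∏ i, d i : ℕ) : ℝ) :=
    le_mul_of_one_le_left (by positivity) hm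
  refine (hX0 _ hX r d hd hsq h2).trans (Finset.card_le_card ?_)
  intro I hI
  rw [Finset.mem_filter] at hI ⊢
  refine ⟨hI.1, hI.2.1, ?_⟩
  intro K _ _ hK hx l hl
  have h3 := hI.2.2 K hK hx l hl
  unfold Pool.Agent.W627.LT.tor at h3
  refine h3.trans (le_of_eq ?_)
  rw [Real.mul_rpow hm0 (by positivity)]
  ring
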