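import Pool.Agent.W627.LT.All

/-!
# Class group torsion of real quadratic fields in very short arithmetic progressions

In every arithmetic progression of length a power of `log X` contained in `[0, X]`, almost all
terms `d` which are not squares give a real quadratic field all whose torsion subgroups of the
class group satisfy the bound `D ^ (1/2 - 1/(2l)) X ^ ε`.
-/

set_option autoImplicit false

open NumberField
open scoped Classical

/-- For all `ε, B > 0` there is `A` such that for all large `X`, in every arithmetic progression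
`a, a + q, …, a + (H-1) q` with `a + q H ≤ X` and `H ≥ (log X) ^ A`, at most `H / (log X) ^ B` of the
terms `d` are not a square and such that, for some `l ≥ 1`, the quadratic field of the square root
of `d` has more than `D ^ (1/2 - 1/(2l)) * X ^ ε` ideal classes killed by `l` (`D` is its
discriminant). -/
theorem Pool.Agent.Results.MP_695920_nt.ShortProgressions.result :
    ∀ ε B : ℝ, 0 < ε → 0 < B → ∃ A X0 : ℝ, 0 < A ∧ ∀ X : ℝ, X0 ≤ X →
      ∀ a q H : ℕ, 1 ≤ q → ((a + q * H : ℕ) : ℝ) ≤ X → Real.log X ^ A ≤ H →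
      (((Finset.range H).filter (fun j => ¬ IsSquare (a + q * j) ∧
        ∃ (K : Type) (_ : Field K) (_ : NumberField K) (l : ℕ), Module.finrank ℚ K = 2 ∧
          (∃ x : K, x ^ 2 = ((a + q * j : ℕ) : K)) ∧ 1 ≤ l ∧
          |(discr K : ℝ)| ^ (1 / 2 - 1 / (2 * l) : ℝ) * X ^ ε <
            (Nat.card {c : ClassGroup (𝓞 K) // c ^ l = 1} : ℝ))).card : ℝ) ≤
        H / Real.log X ^ B := by
  intro ε B hε hB
  obtain ⟨A, X0, hA, h⟩ := Pool.Agent.W627.LT.sW ε B hε hB
  refine ⟨A, X0, hA, fun X hX a q H hq haq hH => ?_⟩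
  refine le_trans ?_ (h X hX a q H hq haq hH)
  have hsub : ((Finset.range H).filter (fun j => ¬ IsSquare (a + q * j) ∧
        ∃ (K : Type) (_ : Field K) (_ : NumberField K) (l : ℕ), Module.finrank ℚ K = 2 ∧
          (∃ x : K, x ^ 2 = ((a + q * j : ℕ) : K)) ∧ 1 ≤ l ∧
          |(discr K : ℝ)| ^ (1 / 2 - 1 / (2 * l) : ℝ) * X ^ ε <
            (Nat.card {c : ClassGroup (𝓞 K) // c ^ l = 1} : ℝ))) ⊆
      ((Finset.range H).filter (fun j => ¬ IsSquare (a + q * j) ∧
        ¬ Pool.Agent.W627.LT.Good ε X (a + q * j))) := by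
    intro j hj
    rw [Finset.mem_filter] at hj ⊢
    obtain ⟨h1, h2, K, i1, i2, l, h3, h4, h5, h6⟩ := hj
    refine ⟨h1, h2, fun hg => ?_⟩
    have h7 := hg K h3 h4 l h5
    unfold Pool.Agent.W627.LT.tor at h7
    exact absurd h7 (not_le.mpr h6)
  exact_mod_cast Finset.card_le_card hsub
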