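import Pool.Agent.W670.TL.Parts

/-!
# MP_695920_nt: the ℓ-torsion conjecture and sparse exceptional sets
-/

set_option autoImplicit false

namespace Pool.Agent.Results.MP_695920_nt.SparseExceptions

open Pool.Agent.W670.TL

/-- If `C_{qn,ℓ}(Δ)` holds up to `O(Y ^ θ)` exceptional fields of absolute discriminant `≤ Y`, where
`q ≠ ℓ` is prime and `n (q - 1) θ < 1`, then `C_{n,ℓ}(qΔ / (1 - n (q - 1) θ))` holds without
exceptions.  So the `ℓ`-torsion conjecture is equivalent to its version with sparse exceptions. -/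
theorem result :
    (∀ (n q ℓ : ℕ) (Δ θ : ℝ), 1 ≤ n → q.Prime → Nat.Coprime q ℓ → 0 ≤ Δ → 0 ≤ θ →
      (n : ℝ) * (q - 1) * θ < 1 → Sparse (q * n) ℓ Δ θ →
        TC n ℓ (q * Δ / (1 - n * (q - 1) * θ))) ∧
    ((∀ n : ℕ, 2 ≤ n → ∀ ℓ : ℕ, ℓ.Prime → TC n ℓ 0) ↔
      (∀ n : ℕ, 2 ≤ n → ∀ ℓ : ℕ, ℓ.Prime → ∃ (q : ℕ) (θ : ℝ), q.Prime ∧ q ≠ ℓ ∧ 0 ≤ θ ∧
        (n : ℝ) * (q - 1) * θ < 1 ∧ Sparse (q * n) ℓ 0 θ)) :=
  ⟨fin, eqv⟩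

end Pool.Agent.Results.MP_695920_nt.SparseExceptions
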